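import Mathlib
import Pool.Agent.Q103.SF.Fin2
import Pool.Agent.Q103.EC.Gen

/-!
# Lang's conjecture (Kobayashi hyperbolic if and only if all subvarieties are of general type) for surfaces
which carry a map with many preperiodic points

`X` is an integral projective surface over `ℂ` (no smoothness is assumed), given by its function field
`K` (of transcendence degree two) and its generic point `x`: homogeneous coordinates in `K` whose ratios
generate `K` (`x ≠ 0`, `coords ℂ x = ⊤`).

`ManyPrep ℂ d B p q` (`Pool/Agent/Q103/EC/Mxv.lean`): `f = p / q` is a rational map of the projective
line over `K` of degree `d` (a family of rational maps over an open subset of `X`) with at least `B`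
preperiodic points in `P^1(K)` (preperiodic rational sections; on `X` they may collide, and `f` may
degenerate) and with generically finite moduli map `X ⇢ M_d`, i.e. maximal variation (`MaxVar`):
whenever `f` is conjugate over an algebraic closure of `K` to a map with coefficients algebraic over a
field `F` between `ℂ` and `K`, then `K` is algebraic over `F`. There are such surfaces for `d = 2` and
every `B`: the surfaces of the quadratic maps with a marked point of exact period `n ≥ B`, `3`; all their
generically finite covers are examples, too.

The conditions (`Pool/Agent/Q103/SF/Defs2.lean`): `KobayashiHyp x`: the Kobayashi pseudodistance of `X`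
separates points; `BrodyHyp x`: all entire curves in `X` are constant; `PicardHyp x`: all holomorphic
maps from the punctured disc to `X` extend to the disc; `NoMero x`: all meromorphic maps `ℂ ^ g ⇢ X` are
constant (so also all rational maps from semi-abelian varieties and all holomorphic maps from complex
tori); `NoElliptic x`: all maps from elliptic curves to `X` are constant; `AlgHyp x`: the degree of
every nonconstant map from a curve of genus `g` to `X` is at most `A * (2 * g - 2)`; `AllGeneral x`: all
closed subvarieties of positive dimension, `X` included, are of general type; `GeomHyp x`: for each
pointed curve the morphisms to `X` with a given value at the marked point are finite in number;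
`lowCurves x`: the closed curves of geometric genus `≤ 1` in `X`.

`SpecialSets x`: the curves of genus `≤ 1` in `X` are finite in number; they are the Zariski closures of
the entire curves, the only closed subvarieties of positive dimension which are not of general type, the
closures of the meromorphic images of the spaces `ℂ ^ g`, and they contain all punctured discs with an
essential singularity; the degree of all other curves is at most `A * (2 * g - 2)`.

Proof (project GT of helper41, projects EC, KO and SF of helper103). Determinants of preperiodic points
and of their derivatives give symmetric differentials on `X` which vanish to a high order where the map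
has bad reduction; so there is a proper closed subset which contains all entire curves and all
subvarieties not of general type. Its one-dimensional components are dealt with by Picard's theorem for
curves of genus `≥ 2`, and curves of genus `≤ 1` are closures of entire curves.
-/

set_option autoImplicit false

namespace Pool.Agent.Results.MP_c6ff8d_ag.ManyPreperiodicSurfaces

open FF Polynomial
open Pool.Agent.W602.GT
open Pool.Agent.Q103.EC (ManyPrep)
open Pool.Agent.Q103.SF

/-- For every `d ≥ 2` there is `B` such that for every projective surface `X` whose function field
carries a rational map of degree `d` with at least `B` preperiodic points and generically finite moduli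
map: `X` is Kobayashi hyperbolic if and only if every closed subvariety of positive dimension is of
general type, and if and only if `X` has one of the other properties in the list. `X` is of general type
and always has the properties `SpecialSets`. For `d = 2` and all `B` there are such surfaces. -/
theorem result (d : ℕ) (hd : 2 ≤ d) :
    (∃ B : ℕ, ∀ (K : Type) [Field K] [Algebra ℂ K] (p q : K[X]), ManyPrep ℂ d B p q →
      Algebra.trdeg ℂ K = (2 : ℕ) → ∀ (M : ℕ) (x : Fin (M + 1) → K), x ≠ 0 → coords ℂ x = ⊤ →
      GeneralType ℂ K 2 ∧ SpecialSets x ∧
      List.TFAE [KobayashiHyp x, AllGeneral x, BrodyHyp x, PicardHyp x, NoMero x, NoElliptic x, AlgHyp x,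
        GeomHyp x, lowCurves x = ∅]) ∧
    ∀ n : ℕ, 3 ≤ n → ∃ (K : Type) (_ : Field K) (_ : Algebra ℂ K) (p q : K[X]),
      ManyPrep ℂ 2 n p q ∧ Algebra.trdeg ℂ K = (2 : ℕ) ∧
      ∃ (M : ℕ) (x : Fin (M + 1) → K), x ≠ 0 ∧ coords ℂ x = ⊤ := by
  refine ⟨?_, fun n hn => Pool.Agent.Q103.EC.exists_surface_gen n hn⟩
  obtain ⟨B, hB⟩ := surface_tfae d hd
  refine ⟨B, fun K _ _ p q h htr M x hx hgen => ?_⟩
  obtain ⟨h1, h2, h3⟩ := hB K p q h htr M x hx hgen
  refine ⟨h1, h2, ?_⟩
  intro a ha b hb
  simp only [List.mem_cons, List.not_mem_nil, or_false] at ha hb
  refine h3 a ?_ b ?_
  · rcases ha with rfl | rfl | rfl | rfl | rfl | rfl | rfl | rfl | rfl <;>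
      simp only [List.mem_cons, true_or, or_true]
  · rcases hb with rfl | rfl | rfl | rfl | rfl | rfl | rfl | rfl | rfl <;>
      simp only [List.mem_cons, true_or, or_true]

end Pool.Agent.Results.MP_c6ff8d_ag.ManyPreperiodicSurfaces
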