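import Pool.Agent.Q72.SH.RigG

/-!
MP_c6ff8d_ag, Q1: if all subvarieties of a projective algebraic set are of general type then all
entire curves in it are rigid.
-/

set_option autoImplicit false

namespace Pool.Agent.Results.MP_c6ff8d_ag.RigidEntireCurves

open MvPolynomial
open Pool.Agent.W602.GT Pool.Agent.TH143 Pool.Agent.TH143.GT Pool.Agent.Q72.SH
open Pool.Agent.W603.BPR (EntireCurve)
open Pool.Agent.W603.GR (SubVarP)

/-- For all `n` and `d` there is a number `M` such that the following is true for all projective
algebraic sets `X` in `P^n` given by a set `E` of forms of degrees at most `d`.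

(1) If all subvarieties of `X` of positive dimension are of general type then all nonconstant entire
curves `f` in `X` are rigid, all translations that leave the intersections of `f` with the coordinate
hyperplanes invariant are translations by rational multiples of one complex number, and among any
`M + 1` nonconstant entire curves in `X` that have the same intersections, with multiplicities, with
the coordinate hyperplanes, there are two that differ by an invertible diagonal matrix of constants.
(2) More precisely, let `f` be a nonconstant entire curve in `X` whose Zariski closure, with the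
function field `K` and the generic point `y`, is of general type. Then `f` is rigid and the
translations have this property. -/
theorem result (n d : ℕ) : ∃ M : ℕ, ∀ E : Set (MvPolynomial (Fin (n + 1)) ℂ),
    (∀ F ∈ E, ∃ e ≤ d, F.IsHomogeneous e) →
    ((∀ (K : Type) [Field K] [Algebra ℂ K] (w : ℕ) (y : Fin (n + 1) → K),
        SubVarP (Ideal.span E) 1 K w y → 0 < w → GeneralType ℂ K w) →
      (∀ f, EntireCurve (Ideal.span E) 1 f → Rigid E 1 f ∧ RatPeriods f) ∧
      ∀ g : Fin (M + 1) → ℂ → Fin (n + 1) → ℂ, (∀ s, EntireCurve (Ideal.span E) 1 (g s)) →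
        (∀ s t, SameSections (g s) (g t)) → ∃ s t, s ≠ t ∧ DiagEq (g s) (g t)) ∧
    ∀ f, EntireCurve (Ideal.span E) 1 f → ∀ (K : Type) [Field K] [Algebra ℂ K] (w : ℕ)
      (y : Fin (n + 1) → K), FunField (idl f) 1 K w y → GeneralType ℂ K w →
      Rigid E 1 f ∧ RatPeriods f := by
  obtain ⟨M, hM⟩ := diag_of_noTor n d
  refine ⟨M, fun E hE => ?_⟩
  have hE' : ∀ F ∈ E, IsForm F := fun F hF => by
    obtain ⟨e, -, he⟩ := hE F hF
    exact ⟨e, he⟩
  exact ⟨fun h => ⟨fun f hf => rigid_of_noTor hE (noTor_of_gt hE' h) hf,
    fun g hg hs => hM E hE (noTor_of_gt hE' h) g hg hs⟩,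
    fun f hf K _ _ w y hy h => rigid_of_gt hE' hf hy h⟩

end Pool.Agent.Results.MP_c6ff8d_ag.RigidEntireCurves
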