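import Pool.Agent.Q64.LC.Uma

/-!
# The subvarieties of a projective variety and its entire curves of slow growth

Let `k` be a countable subfield of `ℂ`. There is one function `Ψ`, growing faster than all
polynomials, with the following properties for all projective algebraic sets `X ⊂ ℙ ^ n` over `k`,
for all `n`. We consider the nonconstant entire curves in `X` with entire homogeneous coordinates `f`
such that `‖f z‖ ≤ C * Ψ ‖z‖` for large `z`.

1. If every subvariety of `X` of dimension at least two (including `X`) has a nonzero pluricanonical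
form, for example if it is of general type, or if it is only not covered by rational curves, then
each of these curves lies in one rational curve.

2. If every subvariety of `X` of positive dimension has a nonzero pluricanonical form, then there are
no such curves.

3. In general `X` contains such curves if and only if it contains rational curves.
-/

set_option autoImplicit false

namespace Pool.Agent.Results.MP_c6ff8d_ag.SlowSubvarieties

open MvPolynomial Pool.Agent.TH143.GT Pool.Agent.W602.GT Pool.Agent.W603.GR Pool.Agent.W603.PV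
open Pool.Agent.Q64.LC

/-- The variety with function field `K` has a nonzero pluricanonical form. -/
def HasForm (K : Type) [Field K] [Algebra ℂ K] (w : ℕ) : Prop :=
  ∃ N : ℕ, 0 < N ∧ ∃ ω : (Fin w → Derivation ℂ K K) → K, Pluricanonical w N ω ∧ ω ≠ 0

theorem result (k : Subfield ℂ) [Countable k] :
    ∃ Ψ : ℝ → ℝ, SuperPoly Ψ ∧ ∀ (n : ℕ) (p : Ideal (MvPolynomial (Fin (n + 1)) ℂ)),
      IsHomog p → OverK k p →
      ((∀ (w : ℕ) (K : Type) [Field K] [Algebra ℂ K] (y : Fin (n + 1) → K), SubVarP p 1 K w y →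
        2 ≤ w → ¬ Covered K ∨ HasForm K w) →
        ∀ f, Entire p 1 f → GrowthLe Ψ f → InPoly p 1 f) ∧
      ((∀ (w : ℕ) (K : Type) [Field K] [Algebra ℂ K] (y : Fin (n + 1) → K), SubVarP p 1 K w y →
        1 ≤ w → HasForm K w) → ∀ f, Entire p 1 f → ¬ GrowthLe Ψ f) ∧
      ((∃ f, Entire p 1 f ∧ GrowthLe Ψ f) ↔ ∃ T, PolyCurve p 1 T) := by
  obtain ⟨Ψ, h1, h2⟩ := uni_main k
  refine ⟨Ψ, h1, fun n p hp hpk => ?_⟩
  have h1k : CoeffK k (1 : MvPolynomial (Fin (n + 1)) ℂ) := ⟨1, (map_one _).symm⟩
  obtain ⟨-, h5, h4, -⟩ := h2 n p 1 0 hp (isHomogeneous_one _ _) hpk h1k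
  have hex : ∀ f, Entire p 1 f → GrowthLe Ψ f → ∃ T, PolyCurve p 1 T := by
    intro f hf hg
    have h6 := h5 f hf hg 0
    have h7 : (ratPts p 1).Nonempty := by
      rw [← closure_nonempty_iff]
      exact ⟨_, h6⟩
    obtain ⟨x, T, hT, -⟩ := h7
    exact ⟨T, hT⟩
  refine ⟨fun h f hf hg => ?_, fun h f hf hg => ?_, ?_⟩
  · refine h4 (finCl_of_sub hp (isHomogeneous_one _ _) fun w K _ _ y hy hw => ?_) f hf hg
    rcases h w K y hy hw with h6 | ⟨N, hN, ω, hω, hω0⟩
    · exact Or.inl h6
    · exact Or.inr ⟨N, hN, ω, hω.logSec _, hω0⟩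
  · obtain ⟨T, hT⟩ := hex f hf hg
    obtain ⟨-, T', -, hT', hN⟩ := hT.reduce (isHomogeneous_one _ _)
    obtain ⟨K, i1, i2, w, y, hsub, hw, -, h6⟩ := sub_of_mor hp (isHomogeneous_one _ _) hT' hN
    obtain ⟨N, hNp, ω, hω, hω0⟩ := h w K y hsub hw
    exact hω0 (h6 N hNp ω (hω.logSec _))
  · constructor
    · rintro ⟨f, hf, hg⟩
      exact hex f hf hg
    · rintro ⟨T, hT⟩
      exact ⟨_, hT.entire, growthLe_poly h1 T⟩

end Pool.Agent.Results.MP_c6ff8d_ag.SlowSubvarieties
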